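import Pool.Agent.H70.Mono.F2
import Pool.Agent.H70.Mono.PubLemmas

/-!
# The motivic monodromy conjecture reduces to hypergraph polynomials

For a subfield `k ⊆ ℂ` let `MC' k f` be the conclusion of Q1 for `f`, without the condition `a < 0`
on the pairs `(a,b) ∈ S` (and `MC k f` the conclusion of Q1 itself). The conjecture holds for all
nonconstant polynomials over `k` iff it holds for the polynomials
`f = ∑_{e ∈ E} ∏_{i ∈ e} x_i + ∑_i ℓ_i x_i`,
where `E` is a hypergraph with a proper colouring of the vertices by three colours (so the edges have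
two or three vertices and `f` has degree at most one in each of three groups of variables), each
vertex lies in at most three edges, and `ℓ` is a linear form over `k`.

The definitions are in `Pool/Agent/H70/Mono/Pub.lean` and `Pool/Agent/H70/Mono/Defs.lean`: the
Grothendieck ring `K0 k` (constructible sets over `k`, disjoint unions, bijective polynomial maps,
products), `M k = K0 k [1/L]`, the truncated arcs `Y k N c f` (`f(φ) ≡ c t^(N-1)` mod `t^N`), the
motivic zeta function `Zmot k f`, membership `InRS k S` in `M_k[T, 1/(1 - L^a T^b)]`, the condition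
`Eig f a b` (`exp(2πi a/b)` is `exp(2πi α)` for a root `α` of the Bernstein-Sato polynomial of `f`,
or for `α = -1`).

Idea: for `F = f + u v` the pair `Z_F, Z_{F + u' v'}` determines `Z_f` by a formula without divisions,
the roots of the Bernstein-Sato polynomial are shifted by one, and
`f₀ + A B + u v` becomes `f₀ + u v + u B - v A` by an automorphism.
-/

set_option autoImplicit false

namespace Pool.Agent.H87.Old.HypergraphReduction

open MvPolynomial
open Pool.Agent.H70.Mono (Tri dg hyp main)
open Pool.Agent.H70.MonoP (MC MC' MC'_iff)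

/-- `f = ∑_{e ∈ E} ∏_{i ∈ e} x_i + ∑_i ℓ_i x_i`; the edges have at least two vertices, different
vertices of an edge have different colours in `Fin 3`, each vertex is in at most three edges. -/
def IsHyp {k : Type} [Field k] {n : ℕ} (f : MvPolynomial (Fin n) k) : Prop :=
  ∃ (κ : Fin n → Fin 3) (E : Finset (Finset (Fin n))) (ℓ : Fin n → k),
    (∀ e ∈ E, 2 ≤ e.card ∧ ∀ i ∈ e, ∀ j ∈ e, κ i = κ j → i = j) ∧
    (∀ i, (E.filter (fun e => i ∈ e)).card ≤ 3) ∧
    f = ∑ e ∈ E, ∏ i ∈ e, X i + ∑ i, C (ℓ i) * X i

theorem MC'_of_MC {k : Type} [Field k] [Algebra k ℂ] {n : ℕ} {f : MvPolynomial (Fin n) k}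
    (h : MC k f) : MC' k f := by
  obtain ⟨S, h1, h2, h3⟩ := h
  exact ⟨S, fun p hp => (h1 p hp).2, h2, h3⟩

theorem isHyp_hyp {k : Type} [Field k] {n : ℕ} {κ : Fin n → Fin 3}
    {E : Finset (Finset (Fin n))} {ℓ : Fin n →₀ k} (hT : Tri κ E) (hd : ∀ i, dg E i ≤ 3) :
    IsHyp (hyp E ℓ) := by
  refine ⟨κ, E, ℓ, fun e he => ⟨(hT e he).1, fun i hi j hj h => (hT e he).2 hi hj h⟩,
    fun i => ?_, ?_⟩
  · have h1 := hd i
    unfold dg at h1
    refine le_trans (le_of_eq ?_) h1
    refine congrArg Finset.card (Finset.ext fun e => ?_)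
    simp only [Finset.mem_filter]
  · unfold hyp
    rw [Finsupp.sum_fintype]
    intro i
    simp

theorem totalDegree_hyp {k : Type} [Field k] {n : ℕ} {κ : Fin n → Fin 3}
    {E : Finset (Finset (Fin n))} {ℓ : Fin n →₀ k} (hT : Tri κ E) (hE : E.Nonempty) :
    (hyp E ℓ).totalDegree ≠ 0 := by
  classical
  obtain ⟨a, ha⟩ := hE
  intro h
  have hp : ∀ e : Finset (Fin n), (∏ i ∈ e, X i : MvPolynomial (Fin n) k) =
      monomial (∑ i ∈ e, Finsupp.single i 1) 1 := by
    intro e
    rw [monomial_sum_one]
    rfl
  have hind : ∀ (e : Finset (Fin n)) (i : Fin n),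
      (∑ i ∈ e, Finsupp.single i 1 : Fin n →₀ ℕ) i = if i ∈ e then 1 else 0 := by
    intro e i
    rw [Finsupp.finsetSum_apply]
    simp [Finsupp.single_apply]
  have hc : coeff (∑ i ∈ a, Finsupp.single i 1) (hyp E ℓ) = (1 : k) := by
    unfold hyp
    rw [coeff_add, coeff_sum, Finset.sum_eq_single a, hp, coeff_monomial, if_pos rfl,
      Finsupp.sum_fintype _ _ (by intro i; simp), coeff_sum, Finset.sum_eq_zero, add_zero]
    · intro i _
      rw [coeff_C_mul, coeff_X, if_neg, mul_zero]
      intro h1
      have h2 : a ⊆ {i} := by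
        intro j hj
        have h3 := DFunLike.congr_fun h1 j
        rw [hind, if_pos hj, Finsupp.single_apply] at h3
        by_contra h4
        rw [if_neg (fun h5 => h4 (by simp [h5]))] at h3
        exact absurd h3 (by norm_num)
      have h3 := Finset.card_le_card h2
      have h4 := (hT a ha).1
      simp at h3
      omega
    · intro e _ hne
      rw [hp, coeff_monomial, if_neg]
      intro h1
      apply hne
      ext i
      have h3 := DFunLike.congr_fun h1 i
      rw [hind, hind] at h3
      by_cases h4 : i ∈ e <;> by_cases h5 : i ∈ a <;> simp [h4, h5] at h3 ⊢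
    · intro h1
      exact absurd ha h1
  have h1 := (totalDegree_eq_zero_iff _ _).mp h (∑ i ∈ a, Finsupp.single i 1)
    (by rw [mem_support_iff, hc]; exact one_ne_zero)
  obtain ⟨i, hi⟩ : a.Nonempty := by
    rw [← Finset.card_pos]
    have := (hT a ha).1
    omega
  have h2 := h1 i
  rw [hind, if_pos hi] at h2
  exact absurd h2 (by norm_num)

/-- **Reduction of the motivic monodromy conjecture to hypergraph polynomials.** For every subfield
`k ⊆ ℂ`: the conjecture (without the condition `a < 0`) holds for all nonconstant polynomials over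
`k` iff it holds for the nonconstant hypergraph polynomials over `k`. In particular, if Q1 (with
`a < 0`) holds for the nonconstant hypergraph polynomials over `k`, then the conjecture (without the
condition `a < 0`) holds for all nonconstant polynomials over `k`. -/
theorem result (k : Subfield ℂ) :
    ((∀ (m : ℕ) (f : MvPolynomial (Fin m) k), f.totalDegree ≠ 0 → MC' k f) ↔
      ∀ (m : ℕ) (f : MvPolynomial (Fin m) k), f.totalDegree ≠ 0 → IsHyp f → MC' k f) ∧
    ((∀ (m : ℕ) (f : MvPolynomial (Fin m) k), f.totalDegree ≠ 0 → IsHyp f → MC k f) →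
      ∀ (m : ℕ) (f : MvPolynomial (Fin m) k), f.totalDegree ≠ 0 → MC' k f) := by
  have key : (∀ (m : ℕ) (f : MvPolynomial (Fin m) k), f.totalDegree ≠ 0 → IsHyp f → MC' k f) →
      ∀ (m : ℕ) (f : MvPolynomial (Fin m) k), f.totalDegree ≠ 0 → MC' k f := by
    intro H m f _
    rw [MC'_iff]
    exact main (fun n κ E ℓ hT hd hne => (MC'_iff k _).mp (H n (hyp E ℓ) (totalDegree_hyp hT hne)
      (isHyp_hyp hT hd))) m f
  exact ⟨⟨fun h m f hf _ => h m f hf, key⟩, fun h => key fun m f hf hH => MC'_of_MC (h m f hf hH)⟩

end Pool.Agent.H87.Old.HypergraphReduction
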