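import Pool.Agent.H9.WMC.Pub
import Pool.Agent.H14.WMC.GEO
import Pool.Agent.H34.WMC.REG
import Pool.Agent.H34.WMC.SUM
import Pool.Agent.H46.WMC.ECL
import Pool.Agent.H46.WMC.LIN
import Pool.Agent.H62.WMC.WMP
import Pool.Agent.H65.WMC.ALG
import Pool.Agent.H65.WMC.CUT
import Pool.Agent.H70.WMC.ConeMod
import Pool.Agent.H70.WMC.PAD
import Pool.Agent.H83.WMC.EOP
import Pool.Agent.H83.WMC.EPR
import Pool.Agent.H83.WMC.GOO
import Pool.Agent.H83.WMC.TWI

/-!
Weight-monodromy in dimension at most `d` is equivalent to weight-monodromy for linear sections of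
Segre varieties, for smooth affine cubics and for cubic cones (MP_d037d4_ag).
-/

namespace Pool.H9.WMC

theorem goo_all : GOOStmt := goo_thm Pool.WMC.wmp_thm fiv_thm twi_thm Pool.WMC.sum_thm

theorem alg_all : ALGStmt :=
  alg Pool.WMC.lin_thm (epr_thm Pool.WMC.lin_thm Pool.WMC.ecl_thm eop_thm) fla_thm'
    (pad_thm Pool.WMC.lin_thm) (con_thm Pool.WMC.lin_thm) Pool.WMC.reg_thm deh_thm'
    (cut Pool.WMC.lin_thm)

end Pool.H9.WMC

namespace Pool.H87.Old.SegreSections

open Pool.H9.WMC

/-- (I) Over an arbitrary field `k`, for every `d` and every set `S` of coefficients which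
generates `k` up to common factors, weight-monodromy for the smooth projective varieties of
dimension at most `d`, for (the weight graded pieces of the compactly supported cohomology of) all
varieties of dimension at most `d`, and for each of the classes B, C, D, Z with `m = d + 2` and
coefficients in `S` are equivalent.
(II) Weight-monodromy for the smooth projective varieties of dimension at most `d` over all the
finite extensions of `ℚ_p` is equivalent to weight-monodromy for all varieties over `ℚ` of dimension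
at most `d`, and for each of the classes B, C, D, Z with `m = d + 2` and coefficients `0, 1, -1`. -/
theorem result {Ω : Type} [Field Ω] [CharZero Ω] [IsAlgClosed Ω] :
    (∀ (k : Type) [Field k] (G : Geometry k) (q : ℕ) (C : Theory G q Ω) (S : Set k) (d : ℕ),
      1 < q → Gen S →
      List.TFAE [∀ Y, G.SmProj Y → G.size Y ≤ d + 1 → ∀ i : ℤ, (C.gr Y i i).WM i,
        ∀ X, G.size X ≤ d + 1 → C.WM X,
        ClassB C.WMA S (d + 2), ClassC C.WMA S (d + 2), ClassD C.WMA S (d + 2),
        ClassZ C.WMA S (d + 2)]) ∧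
    ∀ (p : ℕ) (G : Geometry ℚ) (C : Theory G p Ω) (T : PadicTheory C) (d : ℕ), p.Prime →
      List.TFAE [∀ y, T.dim y ≤ d → ∀ i, (T.H y i).WM i,
        ∀ X, G.size X ≤ d + 1 → C.WM X,
        ClassB C.WMA signs (d + 2), ClassC C.WMA signs (d + 2), ClassD C.WMA signs (d + 2),
        ClassZ C.WMA signs (d + 2)] :=
  ⟨fun _ _ G _ C S d hq hS =>
    tfae_field goo_all (Pool.WMC.geo_thm goo_all) alg_all G hq C.toC S hS d,
   fun _ _ _ T d hp =>
    tfae_padic Pool.WMC.wmp_thm Pool.WMC.sum_thm goo_all (Pool.WMC.geo_thm goo_all) alg_all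
      hp.one_lt T.toP d⟩

end Pool.H87.Old.SegreSections
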