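import Mathlib
import Pool.Agent.H73.WMMain
import Pool.Agent.H87.WMT.Tate

/-!
Weight-monodromy is equivalent to the absence of Tate classes in odd degree.

For a cohomology theory with Frobenius `F`, monodromy `N`, Poincaré duality, products, the
projective line and a Tate curve, in which moreover Frobenius has integral eigenvalues, the
theorem of Honda and Tate holds and there are surfaces with many Tate classes (such as Hyodo-Kato
cohomology of the smooth projective varieties over a `p`-adic field) we show that the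
weight-monodromy conjecture for all varieties and all degrees is equivalent to each of the
following statements:

* there are no Tate classes of negative excess: for all `Y` and `j < 2 r` there is no nonzero
  `x ∈ H^j(Y)` with `N x = 0` and `F x = q ^ r x`;
* the same for the middle cohomology of the varieties `Z` whose dimension `2 r - 1` belongs to a
  given unbounded set `I` of odd numbers;
* for these `Z` the dimension of the space of these classes is bounded by a function of `dim Z`.
-/

namespace Pool.H87.Old.TateClasses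

open Pool.H73.WM Pool.H73.WM.Theory Pool.H87.WMT Module

variable {q : ℕ} {Ω : Type} [Field Ω] [CharZero Ω]

/-- For all `Y` and all `j < 2 r` the only class `x` in `H^j(Y)` with `N x = 0` and `F x = q ^ r x`
is `0`. -/
def NoTate (T : Theory q Ω) : Prop :=
  ∀ (Y : T.Var) (j r : ℕ), j < 2 * r → tate T Y j r = ⊥

/-- For all `Z` whose dimension is of the form `2 r - 1` and belongs to `I` the only class `x` in
the middle cohomology of `Z` with `N x = 0` and `F x = q ^ r x` is `0`. -/
def NoTateMiddle (T : Theory q Ω) (I : Set ℕ) : Prop :=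
  ∀ (Z : T.Var) (r : ℕ), T.dim Z ∈ I → T.dim Z + 1 = 2 * r → tate T Z (T.dim Z) r = ⊥

/-- For all `Z` whose dimension is of the form `2 r - 1` and belongs to `I` the dimension of the
space of all `x` in the middle cohomology of `Z` with `N x = 0` and `F x = q ^ r x` is bounded by a
function of `dim Z`. -/
def BoundedTate (T : Theory q Ω) (I : Set ℕ) : Prop :=
  ∃ g : ℕ → ℕ, ∀ (Z : T.Var) (r : ℕ), T.dim Z ∈ I → T.dim Z + 1 = 2 * r →
    finrank Ω (tate T Z (T.dim Z) r) ≤ g (T.dim Z)

theorem noTate_of_wm (hq : 1 < q) (T : Theory q Ω)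
    (h : ∀ (Y : T.Var) (i : ℕ), T.WeightMonodromy Y i) : NoTate T := by
  intro Y j r hj
  rw [eq_bot_iff]
  rintro x ⟨hxN, hxF⟩
  rw [Submodule.mem_bot]
  by_contra hx0
  rw [SetLike.mem_coe, LinearMap.mem_ker] at hxN
  rw [SetLike.mem_coe, End.mem_eigenspace_iff] at hxF
  obtain ⟨w, hw, hα⟩ := ker_of_wm (h Y j) _ x hx0 hxN hxF
  have := IsWeil.unique hq hα (isWeil_q_pow hq r)
  omega

/-- **Theorem.**  Let `T` be a cohomology theory as above and `I` an unbounded set of odd numbers.
The weight-monodromy property for all `Y` and all `i` is equivalent to the absence of Tate classes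
in degree less than their weight, and it is enough to know that the space of Tate classes of weight
`dim Z + 1` in the middle cohomology of `Z` has dimension bounded by a function of `dim Z`, for
`dim Z ∈ I`. -/
theorem result (q : ℕ) (hq : 1 < q) (Ω : Type) [Field Ω] [CharZero Ω] [IsAlgClosed Ω]
    (T : Theory q Ω) (hT : Arithmetic T) (I : Set ℕ) (hodd : ∀ δ ∈ I, Odd δ)
    (hunb : ∀ n : ℕ, ∃ δ ∈ I, n ≤ δ) :
    List.TFAE [∀ (Y : T.Var) (i : ℕ), T.WeightMonodromy Y i,
      NoTate T, NoTateMiddle T I, BoundedTate T I] := by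
  tfae_have 1 → 2 := noTate_of_wm hq T
  tfae_have 2 → 3 := fun h Z r _ hr => h Z (T.dim Z) r (by omega)
  tfae_have 3 → 4 := by
    intro h
    refine ⟨fun _ => 0, fun Z r hZ hr => ?_⟩
    rw [h Z r hZ hr, finrank_bot]
  tfae_have 4 → 1 := by
    rintro ⟨g, hg⟩ Y i
    refine wm_of_bij hq (fun Y i k => inj_of_single hq (I := {δ | Odd δ}) (fun δ h => h)
      (fun n => ⟨2 * n + 1, ⟨n, rfl⟩, by omega⟩) (single_of_ker hq ?_ _) Y i k) Y i
    intro Y i α x hx0 hxN hxF
    obtain ⟨w, hw⟩ := T.mixed Y i α x hx0 hxF
    refine ⟨w, ?_, hw⟩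
    by_contra hlt
    push Not at hlt
    have hbad : Bad T (T.dim Y) i w := ⟨Y, rfl, x, hx0, hxN, α, hw, hxF⟩
    obtain ⟨s₀, hs₀⟩ := Bad.tate hT hlt hbad
    obtain ⟨δ, hδI, hδ⟩ := hunb (2 * s₀ + 3)
    obtain ⟨s, hs⟩ := hodd δ hδI
    have h1 := hs₀ (s - 1) (by omega)
    obtain ⟨Z, hZ, hZn⟩ := many_tate hT h1 (g δ + 1)
    have hZδ : T.dim Z = δ := by omega
    have h2 := hg Z (s - 1 + 1 + 1) (by rw [hZδ]; exact hδI) (by omega)
    rw [hZδ] at h2 hZn
    omega
  tfae_finish

end Pool.H87.Old.TateClasses
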